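import Pool.Agent.T6.H61.KK.UEnd

/-!
# The law of the zeros of `Ξ_λ` for every `λ < 0`

The points `(Re z / T, Im z / (|λ| log T))`, where `z` runs over the zeros of `Ξ_λ` with
`|Re z| ≤ T`, become uniformly distributed in the square `[-1, 1]²`, and the number of these zeros is
asymptotic to `(T / π) log T`. In particular the proportion of the real zeros tends to `0`.
-/

set_option autoImplicit false

namespace Pool.Agent.Results.MP_023270_nt.UniformLaw

open Filter Topology MeasureTheory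

/-- The kernel `Φ(t) = 2 ∑_{n ≥ 1} (2π²n⁴e^{9t/2} - 3πn²e^{5t/2}) e^{-πn²e^{2t}}`. -/
noncomputable def Phi (t : ℝ) : ℝ :=
  2 * ∑' n : ℕ+, (2 * Real.pi ^ 2 * (n : ℝ) ^ 4 * Real.exp (9 * t / 2) -
    3 * Real.pi * (n : ℝ) ^ 2 * Real.exp (5 * t / 2)) *
      Real.exp (-(Real.pi * (n : ℝ) ^ 2 * Real.exp (2 * t)))

/-- The entire function `Ξ_λ(z) = ∫_{-∞}^{∞} Φ(t) e^{λt²} e^{izt} dt`. -/
noncomputable def Xi (lam : ℝ) (z : ℂ) : ℂ :=
  ∫ t : ℝ, ((Phi t : ℝ) : ℂ) * Complex.exp ((lam : ℂ) * (t : ℂ) ^ 2) *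
    Complex.exp (Complex.I * z * (t : ℂ))

/-- The number of zeros of `f` in `S`, counted with multiplicity (an element of `[0, ∞]`):
the sum over the points of `S` of the order of vanishing of `f`. -/
noncomputable def zeroCount (f : ℂ → ℂ) (S : Set ℂ) : ENNReal :=
  ∑' z : S, ((analyticOrderAt f (z : ℂ) : ℕ∞) : ENNReal)

lemma Phi_eq (t : ℝ) : Phi t = Pool.Agent.Helper242.KK.Ph t := by
  unfold Phi Pool.Agent.Helper242.KK.Ph Pool.Agent.Helper242.RK.Phi
  congr 1
  rw [tsum_pnat_eq_tsum_succ (f := fun n : ℕ => (2 * Real.pi ^ 2 * (n : ℝ) ^ 4 *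
    Real.exp (9 * t / 2) - 3 * Real.pi * (n : ℝ) ^ 2 * Real.exp (5 * t / 2)) *
      Real.exp (-(Real.pi * (n : ℝ) ^ 2 * Real.exp (2 * t))))]
  refine tsum_congr fun n => ?_
  push_cast
  rw [show 9 * (t / 2) = 9 * t / 2 by ring, show 5 * (t / 2) = 5 * t / 2 by ring,
    show 4 * (t / 2) = 2 * t by ring]
  ring_nf

lemma Xi_eq (lam : ℝ) : Xi lam = Pool.Agent.Helper242.KK.XiM (-lam) := by
  funext z
  unfold Xi Pool.Agent.Helper242.KK.XiM Pool.Agent.Helper242.KK.FT Pool.Agent.Helper242.KK.wk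
  refine integral_congr_ae (Eventually.of_forall fun t => ?_)
  simp only [Phi_eq]
  push_cast
  rw [neg_neg]

lemma zeroCount_eq (f : ℂ → ℂ) (S : Set ℂ) :
    zeroCount f S = Pool.Agent.Helper242.KK.zc f S := rfl

/-- **Main theorem.** Let `λ < 0`.

* The number of zeros of `Ξ_λ` with `|Re z| ≤ T` is asymptotic to `(T / π) log T`.
* For `0 < α ≤ 1` and `κ ≥ 0` the proportion of the zeros with `|Re z| ≤ α T` and
  `|Im z| ≤ κ |λ| log T` among the zeros with `|Re z| ≤ T` tends to `α min(κ, 1)`. The zeros are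
  symmetric about both axes, and so the points `(Re z / T, Im z / (|λ| log T))` become uniformly
  distributed in the square `[-1, 1]²`.
* For `κ ≥ 0` the proportion of the zeros with `|z| ≤ T` and `|Im z| ≤ κ |λ| log T` among the zeros
  with `|Re z| ≤ T` tends to `min(κ, 1)`. For `κ = 0` this is the proportion of the real zeros of
  the problem, which tends to `0`.
* All zeros except for finitely many are in a double sector `|Im z| ≤ C |Re z|`. -/
theorem result (lam : ℝ) (hlam : lam < 0) :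
    Tendsto (fun T : ℝ => zeroCount (Xi lam) {z | |z.re| ≤ T} / ENNReal.ofReal (T * Real.log T))
      atTop (𝓝 (ENNReal.ofReal (1 / Real.pi))) ∧
    (∀ α κ : ℝ, 0 < α → α ≤ 1 → 0 ≤ κ →
      Tendsto (fun T : ℝ =>
        zeroCount (Xi lam) {z | |z.re| ≤ α * T ∧ |z.im| ≤ κ * |lam| * Real.log T} /
          zeroCount (Xi lam) {z | |z.re| ≤ T}) atTop (𝓝 (ENNReal.ofReal (α * min κ 1)))) ∧
    (∀ κ : ℝ, 0 ≤ κ →
      Tendsto (fun T : ℝ => zeroCount (Xi lam) {z | ‖z‖ ≤ T ∧ |z.im| ≤ κ * |lam| * Real.log T} /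
        zeroCount (Xi lam) {z | |z.re| ≤ T}) atTop (𝓝 (ENNReal.ofReal (min κ 1)))) ∧
    ∃ C : ℝ, {z : ℂ | Xi lam z = 0 ∧ C * |z.re| < |z.im|}.Finite := by
  have hμ : 0 < -lam := by linarith
  have habs : |lam| = -lam := abs_of_neg hlam
  rw [Xi_eq, habs]
  refine ⟨Pool.Agent.T6.H61.KK.law_vert hμ,
    fun α κ hα hα1 hκ => Pool.Agent.T6.H61.KK.law_rect_ratio hμ hκ hα hα1,
    fun κ hκ => ?_, Pool.Agent.T6.H61.KK.sector_finite hμ⟩
  have h := Pool.Agent.T6.H61.KK.law_disc_ratio (α := 1) hμ hκ one_pos le_rfl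
  simp only [one_mul] at h
  exact h

end Pool.Agent.Results.MP_023270_nt.UniformLaw
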